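import Mathlib
import Pool.Agent.H23.GA.Targets

/-!
# Perfect spanning sets, density zero: the polynomials `BP` (`T_LC`, `T_BD`)
-/

set_option autoImplicit false

open Finset Polynomial Filter Topology
open scoped Classical

namespace Pool.Agent.H42.GA

lemma C_two : (C 2 : ℝ[X]) = 2 := map_ofNat C 2

open Pool.Agent.H23.GA Pool.Agent.H23.GW

lemma BP_zero (v : ℕ → ℝ) : BP v 0 = 1 := by rw [BP]

lemma BP_succ (v : ℕ → ℝ) (n : ℕ) : BP v (n + 1) = C ((n + 1 : ℝ)⁻¹) *
    ∑ k ∈ range (n + 1), (C (v (k + 1)) - if Even (k + 1) then 2 * X else 0) * BP v (n - k) := by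
  rw [BP, Finset.sum_range]

lemma BP_deg (v : ℕ → ℝ) (n : ℕ) : (BP v n).natDegree ≤ n / 2 := by
  induction n using Nat.strong_induction_on with
  | _ n ih =>
    cases n with
    | zero => rw [BP_zero]; simp
    | succ n =>
      rw [BP_succ]
      refine (natDegree_C_mul_le _ _).trans ?_
      apply natDegree_sum_le_of_forall_le
      intro k hk
      rw [Finset.mem_range] at hk
      have h1 := ih (n - k) (by omega)
      refine natDegree_mul_le.trans ?_
      by_cases he : Even (k + 1)
      · rw [if_pos he]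
        have h2 : (C (v (k + 1)) - 2 * X : ℝ[X]).natDegree ≤ 1 := by
          have h3 : (2 * X : ℝ[X]) = C 2 * X := by rw [C_two]
          rw [h3]
          refine (natDegree_sub_le _ _).trans ?_
          rw [natDegree_C]
          exact max_le (by norm_num) ((natDegree_C_mul_le _ _).trans natDegree_X_le)
        obtain ⟨j, hj⟩ := he
        omega
      · rw [if_neg he, sub_zero, natDegree_C]
        omega

lemma coeff_two_X_mul (P : ℝ[X]) (r : ℕ) : (2 * X * P).coeff (r + 1) = 2 * P.coeff r := by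
  have h1 : (2 * X * P : ℝ[X]) = C 2 * (X * P) := by
    rw [C_two]; ring
  rw [h1, coeff_C_mul, coeff_X_mul]

lemma coeff_two_X_mul_zero (P : ℝ[X]) : (2 * X * P).coeff 0 = 0 := by
  have h1 : (2 * X * P : ℝ[X]) = X * (C 2 * P) := by
    rw [C_two]; ring
  rw [h1, coeff_X_mul_zero]

lemma BP_one (v : ℕ → ℝ) : BP v 1 = C (v 1) := by
  rw [show (1 : ℕ) = 0 + 1 from rfl, BP_succ]
  simp [BP_zero]

lemma BP_coeff (v : ℕ → ℝ) (r : ℕ) : (BP v (2 * r)).coeff r = (-1) ^ r / (r.factorial : ℝ) ∧
    (BP v (2 * r + 1)).coeff r = (-1) ^ r * v 1 / (r.factorial : ℝ) := by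
  induction r with
  | zero =>
    constructor
    · rw [mul_zero, BP_zero]; simp
    · rw [mul_zero, zero_add, BP_one]; simp
  | succ r ih =>
    have hf : ((r.factorial : ℕ) : ℝ) ≠ 0 := by exact_mod_cast Nat.factorial_ne_zero r
    have hr : (r : ℝ) + 1 ≠ 0 := by positivity
    have h1 : (BP v (2 * (r + 1))).coeff (r + 1) = (-1) ^ (r + 1) / ((r + 1).factorial : ℝ) := by
      rw [show 2 * (r + 1) = (2 * r + 1) + 1 by ring, BP_succ, coeff_C_mul, finsetSum_coeff]
      rw [Finset.sum_eq_single 1]
      · rw [if_pos (by decide), sub_mul, coeff_sub, coeff_C_mul, coeff_two_X_mul]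
        rw [show 2 * r + 1 - 1 = 2 * r by omega, ih.1]
        rw [coeff_eq_zero_of_natDegree_lt (lt_of_le_of_lt (BP_deg v (2 * r)) (by omega))]
        rw [Nat.factorial_succ]
        push_cast
        field_simp
        ring
      · intro k hk hk1
        rw [Finset.mem_range] at hk
        rw [sub_mul, coeff_sub, coeff_C_mul,
          coeff_eq_zero_of_natDegree_lt (lt_of_le_of_lt (BP_deg v (2 * r + 1 - k)) (by omega)), mul_zero,
          zero_sub]
        by_cases he : Even (k + 1)
        · rw [if_pos he, coeff_two_X_mul]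
          have hk2 : 2 ≤ k := by
            obtain ⟨j, hj⟩ := he
            omega
          rw [coeff_eq_zero_of_natDegree_lt (lt_of_le_of_lt (BP_deg v (2 * r + 1 - k)) (by omega))]
          ring
        · rw [if_neg he, zero_mul, coeff_zero, neg_zero]
      · intro h
        exfalso
        apply h
        rw [Finset.mem_range]
        omega
    refine ⟨h1, ?_⟩
    rw [BP_succ, coeff_C_mul, finsetSum_coeff]
    have h2 : ∀ k ∈ range (2 * (r + 1) + 1), k ∉ ({0, 1} : Finset ℕ) →
        ((C (v (k + 1)) - if Even (k + 1) then 2 * X else 0) * BP v (2 * (r + 1) - k)).coeff (r + 1) = 0 := by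
      intro k hk hk1
      rw [Finset.mem_range] at hk
      simp only [Finset.mem_insert, Finset.mem_singleton, not_or] at hk1
      rw [sub_mul, coeff_sub, coeff_C_mul,
        coeff_eq_zero_of_natDegree_lt (lt_of_le_of_lt (BP_deg v (2 * (r + 1) - k)) (by omega)), mul_zero,
        zero_sub]
      by_cases he : Even (k + 1)
      · rw [if_pos he, coeff_two_X_mul]
        have hk2 : 3 ≤ k := by
          obtain ⟨j, hj⟩ := he
          omega
        rw [coeff_eq_zero_of_natDegree_lt (lt_of_le_of_lt (BP_deg v (2 * (r + 1) - k)) (by omega))]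
        ring
      · rw [if_neg he, zero_mul, coeff_zero, neg_zero]
    rw [← Finset.sum_subset (s₁ := ({0, 1} : Finset ℕ)) (by
      intro k hk
      simp only [Finset.mem_insert, Finset.mem_singleton] at hk
      rw [Finset.mem_range]
      omega) h2]
    rw [Finset.sum_pair (by norm_num)]
    rw [if_neg (by decide), sub_zero, Nat.sub_zero, coeff_C_mul, h1]
    rw [if_pos (by decide), sub_mul, coeff_sub, coeff_C_mul, coeff_two_X_mul]
    rw [show 2 * (r + 1) - 1 = 2 * r + 1 by omega, ih.2]
    rw [coeff_eq_zero_of_natDegree_lt (lt_of_le_of_lt (BP_deg v (2 * r + 1)) (by omega))]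
    rw [Nat.factorial_succ]
    push_cast
    have h3 : (2 * ((r : ℝ) + 1) + 1) ≠ 0 := by positivity
    field_simp
    ring

theorem lc : T_LC := fun v n r => ⟨BP_deg v n, (BP_coeff v r).1, (BP_coeff v r).2⟩

/-! ### square root bound -/

/-- the values -/
noncomputable def bb (v : ℕ → ℝ) (m : ℝ) (n : ℕ) : ℝ := (BP v n).eval m

/-- the factors -/
noncomputable def ff (v : ℕ → ℝ) (m : ℝ) (k : ℕ) : ℝ := v (k + 1) - if Even (k + 1) then 2 * m else 0

lemma bb_zero (v : ℕ → ℝ) (m : ℝ) : bb v m 0 = 1 := by unfold bb; rw [BP_zero]; simp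

lemma bb_succ (v : ℕ → ℝ) (m : ℝ) (n : ℕ) : ((n : ℝ) + 1) * bb v m (n + 1) =
    ∑ k ∈ range (n + 1), ff v m k * bb v m (n - k) := by
  unfold bb ff
  rw [BP_succ, eval_mul, eval_C, ← mul_assoc, mul_inv_cancel₀ (by positivity), one_mul,
    eval_finsetSum]
  apply Finset.sum_congr rfl
  intro k _
  rw [eval_mul, eval_sub, eval_C]
  congr 2
  split_ifs
  · rw [eval_mul, eval_X]; simp
  · simp

lemma geom4 (n : ℕ) : ∑ k ∈ range (n + 1), 3 * (4 : ℝ) ^ (n - k) ≤ 4 ^ (n + 1) := by
  induction n with
  | zero => norm_num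
  | succ n ih =>
    rw [Finset.sum_range_succ']
    have h1 : ∑ k ∈ range (n + 1), 3 * (4 : ℝ) ^ (n + 1 - (k + 1)) = ∑ k ∈ range (n + 1), 3 * (4 : ℝ) ^ (n - k) := by
      apply Finset.sum_congr rfl
      intro k _
      congr 2
      omega
    rw [h1, Nat.sub_zero]
    have h2 : (4 : ℝ) ^ (n + 1 + 1) = 4 * 4 ^ (n + 1) := by ring
    linarith

lemma bb_bound {v : ℕ → ℝ} {m M : ℝ} {s : ℕ} (hM : 1 ≤ M) (hm : 0 ≤ m) (hmM : m ≤ M ^ 2)
    (hv : ∀ k, 1 ≤ k → k ≤ s → |v k| ≤ M) (n : ℕ) (hn : n ≤ s) : |bb v m n| ≤ (4 * M) ^ n := by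
  induction n using Nat.strong_induction_on with
  | _ n ih =>
    cases n with
    | zero => rw [bb_zero]; simp
    | succ n =>
      have h1 : |((n : ℝ) + 1) * bb v m (n + 1)| ≤ (4 * M) ^ (n + 1) := by
        rw [bb_succ]
        refine (Finset.abs_sum_le_sum_abs _ _).trans ?_
        calc ∑ k ∈ range (n + 1), |ff v m k * bb v m (n - k)|
            ≤ ∑ k ∈ range (n + 1), (3 * M ^ (k + 1)) * (4 * M) ^ (n - k) := by
              apply Finset.sum_le_sum
              intro k hk
              rw [Finset.mem_range] at hk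
              rw [abs_mul]
              have h2 := ih (n - k) (by omega) (by omega)
              have h3 : |ff v m k| ≤ 3 * M ^ (k + 1) := by
                have h4 := hv (k + 1) (by omega) (by omega)
                unfold ff
                by_cases he : Even (k + 1)
                · rw [if_pos he]
                  have hk1 : 2 ≤ k + 1 := by
                    obtain ⟨j, hj⟩ := he
                    omega
                  have h5 : M ^ 2 ≤ M ^ (k + 1) := pow_le_pow_right₀ hM hk1
                  have h6 : M ≤ M ^ 2 := by nlinarith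
                  calc |v (k + 1) - 2 * m| ≤ |v (k + 1)| + |2 * m| := abs_sub _ _
                    _ ≤ M + 2 * m := by
                      rw [abs_of_nonneg (by positivity : 0 ≤ 2 * m)]
                      linarith
                    _ ≤ 3 * M ^ (k + 1) := by linarith
                · rw [if_neg he, sub_zero]
                  have h5 : M ^ 1 ≤ M ^ (k + 1) := pow_le_pow_right₀ hM (by omega)
                  rw [pow_one] at h5
                  linarith
              gcongr
          _ = M ^ (n + 1) * ∑ k ∈ range (n + 1), 3 * (4 : ℝ) ^ (n - k) := by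
              rw [Finset.mul_sum]
              apply Finset.sum_congr rfl
              intro k hk
              rw [Finset.mem_range] at hk
              rw [mul_pow]
              have : M ^ (n + 1) = M ^ (k + 1) * M ^ (n - k) := by
                rw [← pow_add]; congr 1; omega
              rw [this]
              ring
          _ ≤ M ^ (n + 1) * 4 ^ (n + 1) := by
              gcongr
              exact geom4 n
          _ = (4 * M) ^ (n + 1) := by rw [mul_pow]; ring
      rw [abs_mul, abs_of_pos (by positivity : (0 : ℝ) < (n : ℝ) + 1)] at h1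
      have h2 : 0 ≤ |bb v m (n + 1)| := abs_nonneg _
      have h3 : (0 : ℝ) ≤ n := Nat.cast_nonneg n
      nlinarith

lemma bb_close {v : ℕ → ℝ} {m M : ℝ} {s : ℕ} (hM : 1 ≤ M) (hm : 0 ≤ m) (hmM : m ≤ M ^ 2)
    (hv : ∀ k, 1 ≤ k → k ≤ s → |v k| ≤ M) (n : ℕ) (hn : n ≤ s) :
    M ^ 2 * |bb v m n - v 1 ^ n / (n.factorial : ℝ)| ≤ 4 ^ n * (M ^ (n + 1) + m * M ^ n) := by
  induction n with
  | zero =>
    rw [bb_zero]
    simp
    positivity
  | succ n ih =>
    have ih' := ih (by omega)
    have hf : ((n.factorial : ℕ) : ℝ) ≠ 0 := by exact_mod_cast Nat.factorial_ne_zero n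
    have hn1 : (n : ℝ) + 1 ≠ 0 := by positivity
    have e1 : ((n : ℝ) + 1) * (bb v m (n + 1) - v 1 ^ (n + 1) / ((n + 1).factorial : ℝ))
        = v 1 * (bb v m n - v 1 ^ n / (n.factorial : ℝ))
          + ∑ k ∈ range n, ff v m (k + 1) * bb v m (n - (k + 1)) := by
      rw [mul_sub, bb_succ, Finset.sum_range_succ', Nat.sub_zero]
      have e2 : ff v m 0 = v 1 := by
        unfold ff
        rw [if_neg (by decide)]
        ring
      rw [e2, Nat.factorial_succ]
      push_cast
      field_simp
      ring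
    have e3 : |∑ k ∈ range n, ff v m (k + 1) * bb v m (n - (k + 1))| * M ^ 2
        ≤ 4 ^ n * (M ^ (n + 2) + 2 * m * M ^ (n + 1)) := by
      have e4 : |∑ k ∈ range n, ff v m (k + 1) * bb v m (n - (k + 1))|
          ≤ ∑ k ∈ range n, (M + 2 * m) * (4 * M) ^ (n - (k + 1)) := by
        refine (Finset.abs_sum_le_sum_abs _ _).trans ?_
        apply Finset.sum_le_sum
        intro k hk
        rw [Finset.mem_range] at hk
        rw [abs_mul]
        have h2 := bb_bound hM hm hmM hv (n - (k + 1)) (by omega)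
        have h3 : |ff v m (k + 1)| ≤ M + 2 * m := by
          have h4 := hv (k + 1 + 1) (by omega) (by omega)
          unfold ff
          calc |v (k + 1 + 1) - if Even (k + 1 + 1) then 2 * m else 0|
              ≤ |v (k + 1 + 1)| + |if Even (k + 1 + 1) then 2 * m else 0| := abs_sub _ _
            _ ≤ M + 2 * m := by
              have h5 : |if Even (k + 1 + 1) then 2 * m else 0| ≤ 2 * m := by
                split_ifs
                · rw [abs_of_nonneg (by positivity)]
                · rw [abs_zero]; positivity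
              linarith
        gcongr
      have e5 : (∑ k ∈ range n, (M + 2 * m) * (4 * M) ^ (n - (k + 1))) * M ^ 2
          ≤ 4 ^ n * (M ^ (n + 2) + 2 * m * M ^ (n + 1)) := by
        cases n with
        | zero => simp; positivity
        | succ j =>
          have e6 : ∀ k ∈ range (j + 1), (M + 2 * m) * (4 * M) ^ (j + 1 - (k + 1)) * M ^ 2
              ≤ (M + 2 * m) * M ^ (j + 2) * (3 * 4 ^ (j - k)) := by
            intro k hk
            rw [Finset.mem_range] at hk
            rw [mul_pow, show j + 1 - (k + 1) = j - k by omega]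
            have e7 : M ^ (j - k) * M ^ 2 ≤ M ^ (j + 2) := by
              rw [← pow_add]
              exact pow_le_pow_right₀ hM (by omega)
            have e8 : 0 ≤ (M + 2 * m) * 4 ^ (j - k) := by positivity
            calc (M + 2 * m) * (4 ^ (j - k) * M ^ (j - k)) * M ^ 2
                = (M + 2 * m) * 4 ^ (j - k) * (M ^ (j - k) * M ^ 2) := by ring
              _ ≤ (M + 2 * m) * 4 ^ (j - k) * M ^ (j + 2) := by gcongr
              _ ≤ (M + 2 * m) * M ^ (j + 2) * (3 * 4 ^ (j - k)) := by
                have e9 : 0 ≤ (M + 2 * m) * 4 ^ (j - k) * M ^ (j + 2) := by positivity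
                linarith
          rw [Finset.sum_mul]
          refine (Finset.sum_le_sum e6).trans ?_
          rw [← Finset.mul_sum]
          have e7 := geom4 j
          calc (M + 2 * m) * M ^ (j + 2) * ∑ k ∈ range (j + 1), 3 * (4 : ℝ) ^ (j - k)
              ≤ (M + 2 * m) * M ^ (j + 2) * 4 ^ (j + 1) := by gcongr
            _ = 4 ^ (j + 1) * (M ^ (j + 1 + 2) + 2 * m * M ^ (j + 1 + 1)) := by ring
      calc |∑ k ∈ range n, ff v m (k + 1) * bb v m (n - (k + 1))| * M ^ 2
          ≤ (∑ k ∈ range n, (M + 2 * m) * (4 * M) ^ (n - (k + 1))) * M ^ 2 := by gcongr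
        _ ≤ _ := e5
    have h1 : ((n : ℝ) + 1) * (M ^ 2 * |bb v m (n + 1) - v 1 ^ (n + 1) / ((n + 1).factorial : ℝ)|)
        ≤ 4 ^ (n + 1) * (M ^ (n + 1 + 1) + m * M ^ (n + 1)) := by
      have e4 : ((n : ℝ) + 1) * (M ^ 2 * |bb v m (n + 1) - v 1 ^ (n + 1) / ((n + 1).factorial : ℝ)|)
          = M ^ 2 * |((n : ℝ) + 1) * (bb v m (n + 1) - v 1 ^ (n + 1) / ((n + 1).factorial : ℝ))| := by
        rw [abs_mul, abs_of_pos (by positivity : (0 : ℝ) < (n : ℝ) + 1)]
        ring
      rw [e4, e1]
      have e5 : |v 1| ≤ M := hv 1 le_rfl (by omega)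
      calc M ^ 2 * |v 1 * (bb v m n - v 1 ^ n / (n.factorial : ℝ))
            + ∑ k ∈ range n, ff v m (k + 1) * bb v m (n - (k + 1))|
          ≤ M ^ 2 * (|v 1 * (bb v m n - v 1 ^ n / (n.factorial : ℝ))|
            + |∑ k ∈ range n, ff v m (k + 1) * bb v m (n - (k + 1))|) := by
            gcongr
            exact abs_add_le _ _
        _ = |v 1| * (M ^ 2 * |bb v m n - v 1 ^ n / (n.factorial : ℝ)|)
            + |∑ k ∈ range n, ff v m (k + 1) * bb v m (n - (k + 1))| * M ^ 2 := by
            rw [abs_mul]; ring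
        _ ≤ M * (4 ^ n * (M ^ (n + 1) + m * M ^ n)) + 4 ^ n * (M ^ (n + 2) + 2 * m * M ^ (n + 1)) := by
            gcongr
        _ ≤ 4 ^ (n + 1) * (M ^ (n + 1 + 1) + m * M ^ (n + 1)) := by
            have e6 : 4 ^ (n + 1) * (M ^ (n + 1 + 1) + m * M ^ (n + 1))
                - (M * (4 ^ n * (M ^ (n + 1) + m * M ^ n)) + 4 ^ n * (M ^ (n + 2) + 2 * m * M ^ (n + 1)))
                = 4 ^ n * (2 * M ^ (n + 2) + m * M ^ (n + 1)) := by ring
            have e7 : 0 ≤ 4 ^ n * (2 * M ^ (n + 2) + m * M ^ (n + 1)) := by positivity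
            linarith
    have h2 : 0 ≤ M ^ 2 * |bb v m (n + 1) - v 1 ^ (n + 1) / ((n + 1).factorial : ℝ)| := by positivity
    have h3 : (0 : ℝ) ≤ n := Nat.cast_nonneg n
    nlinarith

theorem bd : T_BD := by
  intro s hs
  set Q : ℝ := (s.factorial : ℝ) * 4 ^ s with hQ
  have hfs : (1 : ℝ) ≤ s.factorial := by exact_mod_cast Nat.factorial_pos s
  have h4s : (1 : ℝ) ≤ 4 ^ s := one_le_pow₀ (by norm_num)
  have hQ1 : 1 ≤ Q := by
    rw [hQ]; nlinarith
  refine ⟨2 * Q, by linarith, ?_⟩
  intro p hp hsp m v hm hzero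
  have _ : Fact p.Prime := ⟨hp⟩
  have _ : NeZero p := ⟨hp.ne_zero⟩
  have hne : ((univ : Finset (ZMod p)).erase 0).Nonempty := by
    refine ⟨1, ?_⟩
    rw [Finset.mem_erase]
    exact ⟨one_ne_zero, Finset.mem_univ _⟩
  obtain ⟨t0, ht0, hmax⟩ := Finset.exists_max_image _ (fun t => |v t|) hne
  rw [Finset.mem_erase] at ht0
  set M : ℝ := |v t0| with hMdef
  have hall : ∀ t : ZMod p, t ≠ 0 → |v t| ≤ M := fun t ht =>
    hmax t (Finset.mem_erase.2 ⟨ht, Finset.mem_univ _⟩)
  have hsq1 : 1 ≤ √m := by
    rw [Real.one_le_sqrt]; exact hm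
  have hsq2 : √m ^ 2 = m := Real.sq_sqrt (by linarith)
  have hM : M ≤ 2 * Q * √m := by
    by_cases hc : M ≤ √m
    · nlinarith
    · push Not at hc
      have hM1 : 1 ≤ M := by linarith
      have hmM : m ≤ M ^ 2 := by rw [← hsq2]; nlinarith
      have hkt : ∀ k : ℕ, 1 ≤ k → k ≤ s → ((k : ZMod p) * t0) ≠ 0 := by
        intro k hk1 hk2
        apply mul_ne_zero _ ht0.1
        intro h
        rw [ZMod.natCast_eq_zero_iff] at h
        have := Nat.le_of_dvd (by omega) h
        omega
      have h1 := bb_close (v := fun k => v ((k : ZMod p) * t0)) (m := m) (M := M) (s := s) hM1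
        (by linarith) hmM (fun k hk1 hk2 => hall _ (hkt k hk1 hk2)) s le_rfl
      have h2 : bb (fun k => v ((k : ZMod p) * t0)) m s = 0 := hzero t0 ht0.1
      rw [h2, zero_sub, abs_neg, abs_div, abs_pow] at h1
      simp only [Nat.cast_one, one_mul] at h1
      rw [← hMdef, abs_of_pos (by linarith : (0 : ℝ) < s.factorial)] at h1
      have h3 : M ^ s * M ^ 2 ≤ M ^ s * (Q * (M + m)) := by
        have h4 : M ^ 2 * (M ^ s / (s.factorial : ℝ)) * s.factorial = M ^ s * M ^ 2 := by
          field_simp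
        rw [← h4]
        calc M ^ 2 * (M ^ s / (s.factorial : ℝ)) * s.factorial
            ≤ 4 ^ s * (M ^ (s + 1) + m * M ^ s) * s.factorial := by gcongr
          _ = M ^ s * (Q * (M + m)) := by rw [hQ]; ring
      have h5 : M ^ 2 ≤ Q * (M + m) := le_of_mul_le_mul_left h3 (by positivity)
      by_contra hcon
      push Not at hcon
      have h6 : 2 * Q ≤ 2 * Q * √m := by nlinarith
      have h7 : 2 * Q < M := by linarith
      have h8 : M ^ 2 ≤ 2 * Q * m := by nlinarith
      have h9 : (2 * Q * √m) ^ 2 < M ^ 2 := by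
        apply pow_lt_pow_left₀ hcon (by positivity) (by norm_num)
      have h10 : (2 * Q * √m) ^ 2 = 4 * Q ^ 2 * m := by rw [mul_pow, hsq2]; ring
      rw [h10] at h9
      have h11 : 4 * Q ^ 2 * m < 2 * Q * m := by linarith
      have h12 : 2 * Q * m ≤ 4 * Q ^ 2 * m := by
        have : 2 * Q ≤ 4 * Q ^ 2 := by nlinarith
        nlinarith
      linarith
  intro t ht
  exact (hall t ht).trans hM

end Pool.Agent.H42.GA
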