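import Mathlib
import Pool.Agent.H42.GA.LC

/-!
# Perfect spanning sets, density zero: the cosine sums near the square root (`T_ND`)
-/

set_option autoImplicit false

open Finset Polynomial Filter Topology
open scoped Classical

namespace Pool.Agent.H42.GA

open Pool.Agent.H23.GA Pool.Agent.H23.GW

/-- the polynomials `H_n` with generating function `exp (x z - z ^ 2)` -/
noncomputable def HP : ℕ → ℂ[X]
  | 0 => 1
  | 1 => X
  | n + 2 => C (((n : ℂ) + 2)⁻¹) * (X * HP (n + 1) - C 2 * HP n)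

lemma HP_rec (n : ℕ) : C ((n : ℂ) + 2) * HP (n + 2) = X * HP (n + 1) - C 2 * HP n := by
  rw [HP, ← mul_assoc, ← C_mul, mul_inv_cancel₀, C_1, one_mul]
  have : ((n + 2 : ℕ) : ℂ) ≠ 0 := by exact_mod_cast (by omega : n + 2 ≠ 0)
  push_cast at this
  exact this

lemma HP_der (n : ℕ) : derivative (HP (n + 1)) = HP n ∧ derivative (HP (n + 2)) = HP (n + 1) := by
  induction n with
  | zero =>
    have h0 : derivative (HP 1) = HP 0 := by rw [HP, HP]; simp
    refine ⟨h0, ?_⟩
    have h2 : ((0 : ℕ) : ℂ) + 2 ≠ 0 := by norm_num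
    apply mul_left_cancel₀ (C_ne_zero.mpr h2)
    rw [← derivative_C_mul, HP_rec, zero_add, HP, HP]
    simp only [derivative_sub, derivative_mul, derivative_X, derivative_C, derivative_one]
    rw [show ((0 : ℕ) : ℂ) + 2 = 2 by norm_num, show (C (2 : ℂ)) = (2 : ℂ[X]) from map_ofNat C 2]
    ring
  | succ n ih =>
    refine ⟨ih.2, ?_⟩
    have h2 : ((n + 1 : ℕ) : ℂ) + 2 ≠ 0 := by
      have : ((n + 3 : ℕ) : ℂ) ≠ 0 := by exact_mod_cast (by omega : n + 3 ≠ 0)
      push_cast at this ⊢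
      rw [show (n : ℂ) + 1 + 2 = n + 3 by ring]
      exact this
    apply mul_left_cancel₀ (C_ne_zero.mpr h2)
    rw [← derivative_C_mul, HP_rec]
    have h3 : n + 1 + 1 = n + 2 := rfl
    rw [h3, derivative_sub, derivative_mul, derivative_mul, derivative_X, derivative_C, ih.1, ih.2]
    have h4 := HP_rec n
    push_cast
    rw [C_add, C_add, C_1]
    rw [C_add] at h4
    linear_combination -h4

lemma HP_ne (n : ℕ) : HP n ≠ 0 := by
  have h : ∀ n, derivative^[n] (HP n) = 1 := by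
    intro n
    induction n with
    | zero => simp [HP]
    | succ n ih => rw [Function.iterate_succ_apply, (HP_der n).1, ih]
  intro h0
  have := h n
  rw [h0, iterate_derivative_zero] at this
  exact zero_ne_one this

lemma HP_no_common (n : ℕ) (z : ℂ) (h1 : (HP (n + 1)).eval z = 0) (h2 : (HP n).eval z = 0) : False := by
  induction n with
  | zero => rw [HP, eval_one] at h2; exact one_ne_zero h2
  | succ n ih =>
    apply ih h2
    have h3 := congrArg (eval z) (HP_rec n)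
    rw [eval_mul, h1, mul_zero, eval_sub, eval_mul, eval_mul, h2, mul_zero, eval_C, zero_sub] at h3
    have h4 : (2 : ℂ) * (HP n).eval z = 0 := by linear_combination h3
    rcases mul_eq_zero.mp h4 with h | h
    · norm_num at h
    · exact h

/-- a polynomial with simple roots is bounded below by the distance to the nearest root -/
lemma root_near (S : Finset ℂ) (hS : S.Nonempty) : ∃ c : ℝ, 0 < c ∧ ∀ z : ℂ, ∃ ρ ∈ S,
    c * ‖z - ρ‖ ≤ ∏ σ ∈ S, ‖z - σ‖ := by
  obtain ⟨δ, hδ0, hδ⟩ : ∃ δ : ℝ, 0 < δ ∧ ∀ a ∈ S, ∀ b ∈ S, a ≠ b → δ ≤ ‖a - b‖ := by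
    by_cases hne : S.offDiag.Nonempty
    · obtain ⟨x, hx, hmin⟩ := Finset.exists_min_image S.offDiag (fun x => ‖x.1 - x.2‖) hne
      rw [Finset.mem_offDiag] at hx
      refine ⟨‖x.1 - x.2‖, norm_pos_iff.mpr (sub_ne_zero.mpr hx.2.2), ?_⟩
      intro a ha b hb hab
      exact hmin (a, b) (Finset.mem_offDiag.2 ⟨ha, hb, hab⟩)
    · refine ⟨1, one_pos, ?_⟩
      intro a ha b hb hab
      exact absurd ⟨(a, b), Finset.mem_offDiag.2 ⟨ha, hb, hab⟩⟩ hne
  refine ⟨(δ / 2) ^ (S.card - 1), by positivity, ?_⟩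
  intro z
  obtain ⟨ρ, hρ, hmin⟩ := Finset.exists_min_image S (fun σ => ‖z - σ‖) hS
  refine ⟨ρ, hρ, ?_⟩
  rw [← Finset.mul_prod_erase S _ hρ, mul_comm]
  apply mul_le_mul_of_nonneg_left _ (norm_nonneg _)
  rw [← Finset.card_erase_of_mem hρ, ← Finset.prod_const]
  apply Finset.prod_le_prod (fun _ _ => by positivity)
  intro σ hσ
  rw [Finset.mem_erase] at hσ
  have h1 := hδ ρ hρ σ hσ.2 (Ne.symm hσ.1)
  have h2 := hmin σ hσ.2
  have h3 : ‖ρ - σ‖ ≤ ‖z - ρ‖ + ‖z - σ‖ := by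
    have : ρ - σ = (z - σ) - (z - ρ) := by ring
    rw [this]
    have h4 := norm_sub_le (z - σ) (z - ρ)
    linarith
  linarith

lemma HP_root_near (s : ℕ) (hs : 1 ≤ s) : ∃ (R : Finset ℝ) (c : ℝ), 0 < c ∧ ∀ x : ℝ, ∃ ρ ∈ R,
    c * |x - ρ| ≤ ‖(HP s).eval (x : ℂ)‖ := by
  obtain ⟨n, rfl⟩ : ∃ n, s = n + 1 := ⟨s - 1, by omega⟩
  have hder := (HP_der n).1
  have h0 := HP_ne (n + 1)
  have hdeg : (HP (n + 1)).degree ≠ 0 := by
    intro h
    rw [eq_C_of_degree_eq_zero h, derivative_C] at hder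
    exact HP_ne n hder.symm
  have hroots : (HP (n + 1)).roots.toFinset.Nonempty := by
    obtain ⟨z, hz⟩ := IsAlgClosed.exists_root (HP (n + 1)) hdeg
    refine ⟨z, ?_⟩
    rw [Multiset.mem_toFinset, mem_roots h0]
    exact hz
  have hsep : (HP (n + 1)).Separable := by
    unfold Separable
    rw [isCoprime_iff_aeval_ne_zero_of_isAlgClosed ℂ ℂ]
    intro a
    rw [coe_aeval_eq_eval, hder]
    by_contra h
    push Not at h
    exact HP_no_common n a h.1 h.2
  have hnd : (HP (n + 1)).roots.Nodup := nodup_roots hsep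
  have hprod : ∀ z : ℂ, ‖(HP (n + 1)).eval z‖ =
      ‖(HP (n + 1)).leadingCoeff‖ * ∏ σ ∈ (HP (n + 1)).roots.toFinset, ‖z - σ‖ := by
    intro z
    have h1 := (IsAlgClosed.splits (HP (n + 1))).eq_prod_roots
    have h2 := congrArg (eval z) h1
    rw [eval_mul, eval_C, eval_multiset_prod, Multiset.map_map] at h2
    rw [h2, norm_mul]
    congr 1
    have h3 : (Multiset.map (eval z ∘ fun a => X - C a) (HP (n + 1)).roots).prod
        = ∏ σ ∈ (HP (n + 1)).roots.toFinset, (z - σ) := by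
      rw [Finset.prod_multiset_map_count]
      apply Finset.prod_congr rfl
      intro σ hσ
      rw [Multiset.mem_toFinset] at hσ
      rw [Multiset.count_eq_one_of_mem hnd hσ, pow_one]
      simp
    rw [h3, norm_prod]
  obtain ⟨c, hc, hcz⟩ := root_near _ hroots
  have hlc : 0 < ‖(HP (n + 1)).leadingCoeff‖ := norm_pos_iff.mpr (leadingCoeff_ne_zero.mpr h0)
  refine ⟨(HP (n + 1)).roots.toFinset.image Complex.re, ‖(HP (n + 1)).leadingCoeff‖ * c,
    by positivity, ?_⟩
  intro x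
  obtain ⟨ρ, hρ, h⟩ := hcz (x : ℂ)
  refine ⟨ρ.re, Finset.mem_image_of_mem _ hρ, ?_⟩
  rw [hprod, mul_assoc]
  apply mul_le_mul_of_nonneg_left _ hlc.le
  refine le_trans ?_ h
  apply mul_le_mul_of_nonneg_left _ hc.le
  have h1 : x - ρ.re = ((x : ℂ) - ρ).re := by simp
  rw [h1]
  exact Complex.abs_re_le_norm _

/-! ### the normalised values -/

/-- normalised factor -/
noncomputable def gg (w : ℕ → ℝ) (y : ℝ) (k : ℕ) : ℝ := ff w (y ^ 2) k / y ^ (k + 1)

/-- normalised value -/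
noncomputable def bt (w : ℕ → ℝ) (y : ℝ) (n : ℕ) : ℝ := bb w (y ^ 2) n / y ^ n

lemma bt_succ {w : ℕ → ℝ} {y : ℝ} (hy : 1 ≤ y) (n : ℕ) : ((n : ℝ) + 1) * bt w y (n + 1) =
    ∑ k ∈ range (n + 1), gg w y k * bt w y (n - k) := by
  have hy0 : y ≠ 0 := by linarith
  unfold bt gg
  rw [← mul_div_assoc, bb_succ, Finset.sum_div]
  apply Finset.sum_congr rfl
  intro k hk
  rw [Finset.mem_range] at hk
  have h1 : y ^ (n + 1) = y ^ (k + 1) * y ^ (n - k) := by
    rw [← pow_add]; congr 1; omega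
  rw [h1, mul_div_mul_comm]

lemma gg_zero {w : ℕ → ℝ} {y : ℝ} : gg w y 0 = w 1 / y := by
  unfold gg ff
  rw [if_neg (by decide)]
  simp

lemma gg_one {w : ℕ → ℝ} {y : ℝ} (hy : 1 ≤ y) : gg w y 1 = w 2 / y ^ 2 - 2 := by
  have hy0 : y ≠ 0 := by linarith
  unfold gg ff
  rw [if_pos (by decide)]
  field_simp
  ring

lemma gg_bound {w : ℕ → ℝ} {y K : ℝ} (hK : 0 ≤ K) (hy : 1 ≤ y) {k : ℕ} (hw : |w (k + 1)| ≤ K * y) :
    |gg w y k| ≤ K + 2 ∧ (2 ≤ k → |gg w y k| ≤ (K + 2) / y) := by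
  have hy0 : 0 < y := by linarith
  unfold gg ff
  have hnum : |w (k + 1) - if Even (k + 1) then 2 * y ^ 2 else 0| ≤ K * y + if Even (k + 1) then 2 * y ^ 2 else 0 := by
    refine (abs_sub _ _).trans ?_
    have h5 : |if Even (k + 1) then 2 * y ^ 2 else 0| = if Even (k + 1) then 2 * y ^ 2 else 0 := by
      split_ifs
      · rw [abs_of_nonneg (by positivity)]
      · rw [abs_zero]
    rw [h5]
    linarith
  rw [abs_div, abs_of_pos (by positivity : 0 < y ^ (k + 1))]
  constructor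
  · rw [div_le_iff₀ (by positivity)]
    by_cases he : Even (k + 1)
    · rw [if_pos he] at hnum ⊢
      have hk1 : 2 ≤ k + 1 := by
        obtain ⟨j, hj⟩ := he
        omega
      have h5 : y ^ 2 ≤ y ^ (k + 1) := pow_le_pow_right₀ hy hk1
      have h6 : y ≤ y ^ 2 := by nlinarith
      nlinarith
    · rw [if_neg he] at hnum ⊢
      have h5 : y ^ 1 ≤ y ^ (k + 1) := pow_le_pow_right₀ hy (by omega)
      rw [pow_one] at h5
      nlinarith
  · intro hk
    rw [div_le_div_iff₀ (by positivity) hy0]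
    have h5 : y ^ 3 ≤ y ^ (k + 1) := pow_le_pow_right₀ hy (by omega)
    have h6 : y ^ 2 ≤ y ^ 3 := pow_le_pow_right₀ hy (by norm_num)
    have h7 : (if Even (k + 1) then 2 * y ^ 2 else 0) ≤ 2 * y ^ 2 := by
      split_ifs
      · exact le_rfl
      · positivity
    have h8 : |w (k + 1) - if Even (k + 1) then 2 * y ^ 2 else 0| * y ≤ (K * y + 2 * y ^ 2) * y := by
      gcongr
      linarith
    have h9 : (K * y + 2 * y ^ 2) * y = K * y ^ 2 + 2 * y ^ 3 := by ring
    nlinarith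

lemma bt_bound {w : ℕ → ℝ} {y K : ℝ} {s : ℕ} (hK : 0 ≤ K) (hy : 1 ≤ y)
    (hw : ∀ k, 1 ≤ k → k ≤ s → |w k| ≤ K * y) (n : ℕ) (hn : n ≤ s) : |bt w y n| ≤ (K + 3) ^ n := by
  induction n using Nat.strong_induction_on with
  | _ n ih =>
    cases n with
    | zero => unfold bt; rw [bb_zero]; simp
    | succ n =>
      have h1 : |((n : ℝ) + 1) * bt w y (n + 1)| ≤ (K + 3) ^ (n + 1) := by
        rw [bt_succ hy]
        refine (Finset.abs_sum_le_sum_abs _ _).trans ?_
        calc ∑ k ∈ range (n + 1), |gg w y k * bt w y (n - k)|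
            ≤ ∑ k ∈ range (n + 1), (K + 2) * (K + 3) ^ (n - k) := by
              apply Finset.sum_le_sum
              intro k hk
              rw [Finset.mem_range] at hk
              rw [abs_mul]
              have h2 := ih (n - k) (by omega) (by omega)
              have h3 := (gg_bound hK hy (hw (k + 1) (by omega) (by omega))).1
              gcongr
          _ ≤ (K + 3) ^ (n + 1) := by
              have h2 : ∑ k ∈ range (n + 1), (K + 2) * (K + 3) ^ (n - k) = (K + 3) ^ (n + 1) - 1 := by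
                have h5 := Finset.sum_range_reflect (fun j => (K + 3) ^ j) (n + 1)
                simp only [Nat.add_sub_cancel] at h5
                rw [← Finset.mul_sum, h5]
                have h4 := mul_geom_sum (K + 3) (n + 1)
                rw [← h4]
                ring
              rw [h2]
              linarith
      rw [abs_mul, abs_of_pos (by positivity : (0 : ℝ) < (n : ℝ) + 1)] at h1
      have h2 : 0 ≤ |bt w y (n + 1)| := abs_nonneg _
      have h3 : (0 : ℝ) ≤ n := Nat.cast_nonneg n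
      nlinarith

lemma bt_close (K : ℝ) (hK : 0 ≤ K) (n : ℕ) : (∃ C : ℝ, 0 ≤ C ∧ ∀ (w : ℕ → ℝ) (y : ℝ), 1 ≤ y →
    (∀ k, 1 ≤ k → k ≤ n → |w k| ≤ K * y) →
    ‖(bt w y n : ℂ) - (HP n).eval ((w 1 / y : ℝ) : ℂ)‖ ≤ C / y) ∧
    (∃ C : ℝ, 0 ≤ C ∧ ∀ (w : ℕ → ℝ) (y : ℝ), 1 ≤ y →
    (∀ k, 1 ≤ k → k ≤ n + 1 → |w k| ≤ K * y) →
    ‖(bt w y (n + 1) : ℂ) - (HP (n + 1)).eval ((w 1 / y : ℝ) : ℂ)‖ ≤ C / y) := by
  induction n with
  | zero =>
    constructor
    · refine ⟨0, le_rfl, ?_⟩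
      intro w y hy _
      rw [HP, eval_one]
      unfold bt
      rw [bb_zero]
      simp
    · refine ⟨0, le_rfl, ?_⟩
      intro w y hy _
      have h1 := bt_succ (w := w) hy 0
      rw [zero_add, Finset.sum_range_one, gg_zero] at h1
      have h2 : bt w y 0 = 1 := by unfold bt; rw [bb_zero]; simp
      rw [Nat.sub_zero, h2] at h1
      simp only [Nat.cast_zero, zero_add, one_mul, mul_one] at h1
      rw [zero_add, h1, HP, eval_X, sub_self, norm_zero]
      positivity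
  | succ n ih =>
    obtain ⟨⟨C0, hC0, h0⟩, ⟨C1, hC1, h1⟩⟩ := ih
    refine ⟨⟨C1, hC1, h1⟩, ?_⟩
    refine ⟨K * C1 + 2 * C0 + K * (K + 3) ^ n + (K + 2) * ((n : ℝ) * (K + 3) ^ n), by positivity, ?_⟩
    intro w y hy hw
    have hy0 : 0 < y := by linarith
    have hyC : (y : ℂ) ≠ 0 := by exact_mod_cast hy0.ne'
    have hr := bt_succ (w := w) hy (n + 1)
    rw [Finset.sum_range_succ', Finset.sum_range_succ'] at hr
    set x : ℝ := w 1 / y with hx
    have hx1 : |x| ≤ K := by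
      rw [hx, abs_div, abs_of_pos hy0, div_le_iff₀ hy0]
      exact hw 1 le_rfl (by omega)
    have e0 := h0 w y hy (fun k hk1 hk2 => hw k hk1 (by omega))
    have e1 := h1 w y hy (fun k hk1 hk2 => hw k hk1 (by omega))
    have eH := congrArg (eval (x : ℂ)) (HP_rec n)
    rw [eval_mul, eval_C, eval_sub, eval_mul, eval_mul, eval_X, eval_C] at eH
    set T : ℝ := ∑ k ∈ range n, gg w y (k + 1 + 1) * bt w y (n + 1 - (k + 1 + 1)) with hT
    have hTb : |T| ≤ (K + 2) * ((n : ℝ) * (K + 3) ^ n) / y := by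
      rw [hT]
      refine (Finset.abs_sum_le_sum_abs _ _).trans ?_
      calc ∑ k ∈ range n, |gg w y (k + 1 + 1) * bt w y (n + 1 - (k + 1 + 1))|
          ≤ ∑ k ∈ range n, (K + 2) / y * (K + 3) ^ n := by
            apply Finset.sum_le_sum
            intro k hk
            rw [Finset.mem_range] at hk
            rw [abs_mul]
            have h2 := bt_bound hK hy (s := n + 1 + 1) hw (n + 1 - (k + 1 + 1)) (by omega)
            have h3 := (gg_bound hK hy (hw (k + 1 + 1 + 1) (by omega) (by omega))).2 (by omega)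
            have h4 : (K + 3) ^ (n + 1 - (k + 1 + 1)) ≤ (K + 3) ^ n :=
              pow_le_pow_right₀ (by linarith) (by omega)
            calc |gg w y (k + 1 + 1)| * |bt w y (n + 1 - (k + 1 + 1))|
                ≤ (K + 2) / y * (K + 3) ^ (n + 1 - (k + 1 + 1)) := by gcongr
              _ ≤ (K + 2) / y * (K + 3) ^ n := by gcongr
        _ = (K + 2) * ((n : ℝ) * (K + 3) ^ n) / y := by
            rw [Finset.sum_const, Finset.card_range, nsmul_eq_mul]
            ring
    have g0 : gg w y 0 = x := gg_zero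
    have g1 : gg w y (0 + 1) = w 2 / y ^ 2 - 2 := gg_one hy
    rw [g0, g1, Nat.sub_zero] at hr
    have hw2 : |w 2 / y ^ 2| ≤ K / y := by
      rw [abs_div, abs_of_pos (by positivity : 0 < y ^ 2), div_le_div_iff₀ (by positivity) hy0]
      have := hw 2 (by omega) (by omega)
      nlinarith
    have hbn := bt_bound hK hy (s := n + 1 + 1) hw n (by omega)
    have hkey : (((n : ℂ) + 2)) * ((bt w y (n + 1 + 1) : ℂ) - (HP (n + 1 + 1)).eval (x : ℂ))
        = (x : ℂ) * ((bt w y (n + 1) : ℂ) - (HP (n + 1)).eval (x : ℂ))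
          - 2 * ((bt w y n : ℂ) - (HP n).eval (x : ℂ)) + ((w 2 / y ^ 2 * bt w y n : ℝ) : ℂ) + (T : ℂ) := by
      have hr' := congrArg (fun t : ℝ => (t : ℂ)) hr
      push_cast at hr'
      push_cast
      linear_combination hr' - eH
    have hn2 : ‖(((n : ℂ) + 2))‖ = (n : ℝ) + 2 := by
      have : ((n : ℂ) + 2) = (((n : ℝ) + 2 : ℝ) : ℂ) := by push_cast; ring
      rw [this, Complex.norm_real, Real.norm_of_nonneg (by positivity)]
    have hnorm : ((n : ℝ) + 2) * ‖(bt w y (n + 1 + 1) : ℂ) - (HP (n + 1 + 1)).eval (x : ℂ)‖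
        ≤ (K * C1 + 2 * C0 + K * (K + 3) ^ n + (K + 2) * ((n : ℝ) * (K + 3) ^ n)) / y := by
      rw [← hn2, ← norm_mul, hkey]
      refine (norm_add_le _ _).trans ?_
      have t1 : ‖(x : ℂ) * ((bt w y (n + 1) : ℂ) - (HP (n + 1)).eval (x : ℂ))
          - 2 * ((bt w y n : ℂ) - (HP n).eval (x : ℂ)) + ((w 2 / y ^ 2 * bt w y n : ℝ) : ℂ)‖
          ≤ K * (C1 / y) + 2 * (C0 / y) + K / y * (K + 3) ^ n := by
        refine (norm_add_le _ _).trans ?_
        have t2 : ‖(x : ℂ) * ((bt w y (n + 1) : ℂ) - (HP (n + 1)).eval (x : ℂ))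
            - 2 * ((bt w y n : ℂ) - (HP n).eval (x : ℂ))‖ ≤ K * (C1 / y) + 2 * (C0 / y) := by
          refine (norm_sub_le _ _).trans ?_
          rw [norm_mul, norm_mul, Complex.norm_real, Real.norm_eq_abs]
          have : ‖(2 : ℂ)‖ = 2 := by norm_num
          rw [this]
          gcongr
        have t3 : ‖((w 2 / y ^ 2 * bt w y n : ℝ) : ℂ)‖ ≤ K / y * (K + 3) ^ n := by
          rw [Complex.norm_real, Real.norm_eq_abs, abs_mul]
          gcongr
        linarith
      have t4 : ‖(T : ℂ)‖ ≤ (K + 2) * ((n : ℝ) * (K + 3) ^ n) / y := by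
        rw [Complex.norm_real, Real.norm_eq_abs]
        exact hTb
      have t5 : (K * C1 + 2 * C0 + K * (K + 3) ^ n + (K + 2) * ((n : ℝ) * (K + 3) ^ n)) / y
          = (K * (C1 / y) + 2 * (C0 / y) + K / y * (K + 3) ^ n) + (K + 2) * ((n : ℝ) * (K + 3) ^ n) / y := by
        ring
      rw [t5]
      linarith
    have h5 : 0 ≤ ‖(bt w y (n + 1 + 1) : ℂ) - (HP (n + 1 + 1)).eval (x : ℂ)‖ := norm_nonneg _
    have h6 : (0 : ℝ) ≤ n := Nat.cast_nonneg n
    nlinarith

theorem nd (hBD : T_BD) : T_ND := by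
  intro s hs
  obtain ⟨K0, hK0, hBD'⟩ := hBD s hs
  obtain ⟨⟨C1, hC1, hclose⟩, _⟩ := bt_close K0 hK0.le s
  obtain ⟨R, c, hc, hR⟩ := HP_root_near s hs
  refine ⟨C1 / c + 1, R, by positivity, ?_⟩
  intro p hp hsp m v hm hzero t ht
  have _ : Fact p.Prime := ⟨hp⟩
  have hall := hBD' p hp hsp m v hm hzero
  set y : ℝ := √m with hy
  have hy1 : 1 ≤ y := by rw [hy, Real.one_le_sqrt]; exact hm
  have hy0 : 0 < y := by linarith
  have hsq2 : y ^ 2 = m := Real.sq_sqrt (by linarith)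
  have hkt : ∀ k : ℕ, 1 ≤ k → k ≤ s → ((k : ZMod p) * t) ≠ 0 := by
    intro k hk1 hk2
    apply mul_ne_zero _ ht
    intro h
    rw [ZMod.natCast_eq_zero_iff] at h
    have := Nat.le_of_dvd (by omega) h
    omega
  have h1 := hclose (fun k => v ((k : ZMod p) * t)) y hy1 (fun k hk1 hk2 => hall _ (hkt k hk1 hk2))
  have h2 : bt (fun k => v ((k : ZMod p) * t)) y s = 0 := by
    unfold bt bb
    rw [hsq2, hzero t ht, zero_div]
  rw [h2] at h1
  simp only [Nat.cast_one, one_mul, Complex.ofReal_zero, zero_sub, norm_neg] at h1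
  obtain ⟨ρ, hρ, h3⟩ := hR (v t / y)
  refine ⟨ρ, hρ, ?_⟩
  have h4 : |v t / y - ρ| ≤ C1 / y / c := by
    rw [le_div_iff₀ hc]
    linarith
  have h5 : |v t - ρ * y| = y * |v t / y - ρ| := by
    rw [← abs_of_pos hy0, ← abs_mul, abs_of_pos hy0]
    congr 1
    field_simp
  rw [h5]
  calc y * |v t / y - ρ| ≤ y * (C1 / y / c) := by gcongr
    _ = C1 / c := by field_simp
    _ ≤ C1 / c + 1 := by linarith

end Pool.Agent.H42.GA
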