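import Mathlib
import Pool.Agent.H42.GA.ND

/-!
# Perfect spanning sets, density zero: counting sizes (`T_CT`)
-/

set_option autoImplicit false

open Finset Polynomial Filter Topology
open scoped Classical

namespace Pool.Agent.H42.GA

open Pool.Agent.H23.GA Pool.Agent.H23.GW

lemma BP_congr {v v' : ℕ → ℝ} (n : ℕ) (h : ∀ k, 1 ≤ k → k ≤ n → v k = v' k) : BP v n = BP v' n := by
  induction n using Nat.strong_induction_on with
  | _ n ih =>
    cases n with
    | zero => rw [BP_zero, BP_zero]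
    | succ n =>
      rw [BP_succ, BP_succ]
      congr 1
      apply Finset.sum_congr rfl
      intro k hk
      rw [Finset.mem_range] at hk
      rw [h (k + 1) (by omega) (by omega), ih (n - k) (by omega) (fun j h1 h2 => h j h1 (by omega))]

section

variable {p : ℕ} [NeZero p]

lemma sum_range_zmod {M : Type*} [AddCommMonoid M] (f : ZMod p → M) :
    ∑ c ∈ range p, f (c : ZMod p) = ∑ c : ZMod p, f c :=
  Finset.sum_nbij' (fun c => (c : ZMod p)) ZMod.val (by simp)
    (fun c _ => Finset.mem_range.2 (ZMod.val_lt c))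
    (fun c hc => ZMod.val_cast_of_lt (Finset.mem_range.1 hc))
    (fun c _ => ZMod.natCast_zmod_val c) (fun _ _ => rfl)

/-- the standard character -/
noncomputable def ps (x : ZMod p) : ℂ := ZMod.stdAddChar (N := p) x

lemma ps_add (x y : ZMod p) : ps (x + y) = ps x * ps y := AddChar.map_add_eq_mul _ _ _

lemma ps_zero : ps (0 : ZMod p) = 1 := AddChar.map_zero_eq_one _

lemma ps_neg (x : ZMod p) : ps (-x) = (starRingEnd ℂ) (ps x) := AddChar.map_neg_eq_conj _ _

lemma ps_norm (x : ZMod p) : ‖ps x‖ = 1 := AddChar.norm_apply _ _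

lemma ps_re (t : ZMod p) (c : ℕ) : (ps (t * (c : ZMod p))).re
    = Real.cos (2 * Real.pi * ((t.val * c : ℕ) : ℝ) / p) := by
  have h1 : t * (c : ZMod p) = (((t.val * c : ℕ) : ℤ) : ZMod p) := by
    push_cast
    rw [ZMod.natCast_zmod_val]
  unfold ps
  rw [h1, ZMod.stdAddChar_coe]
  have h2 : (2 * Real.pi * Complex.I * (((t.val * c : ℕ) : ℤ) : ℂ) / (p : ℂ) : ℂ)
      = ((2 * Real.pi * ((t.val * c : ℕ) : ℝ) / p : ℝ) : ℂ) * Complex.I := by
    push_cast
    ring
  rw [h2, Complex.exp_ofReal_mul_I_re]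

lemma sum_ps (hp : p.Prime) (b : ZMod p) : ∑ x : ZMod p, ps (x * b) = if b = 0 then (p : ℂ) else 0 := by
  have _ : Fact p.Prime := ⟨hp⟩
  have h := AddChar.sum_mulShift (ψ := ZMod.stdAddChar (N := p)) b (ZMod.isPrimitive_stdAddChar p)
  rw [ZMod.card] at h
  unfold ps
  rw [h]
  split_ifs <;> simp

/-- the Fourier transform -/
noncomputable def VV (τ : ZMod p → ℕ) (t : ZMod p) : ℂ := ∑ c : ZMod p, (τ c : ℂ) * ps (t * c)

/-- real part of the transform of an integral function -/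
noncomputable def vu (u : ZMod p → ℤ) (t : ZMod p) : ℝ := (∑ c : ZMod p, (u c : ℂ) * ps (t * c)).re

lemma cs_re (τ : ZMod p → ℕ) (t : ZMod p) : cs p τ t = (VV τ t).re := by
  unfold cs VV
  rw [← sum_range_zmod (fun c : ZMod p => (τ c : ℂ) * ps (t * c)), Complex.re_sum]
  apply Finset.sum_congr rfl
  intro c _
  rw [← ps_re, ← Complex.ofReal_natCast, Complex.re_ofReal_mul]

lemma VV_real {τ : ZMod p → ℕ} (hτ : ∀ c, τ (-c) = τ c) (t : ZMod p) :
    VV τ t = ((cs p τ t : ℝ) : ℂ) := by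
  rw [cs_re]
  have h : (starRingEnd ℂ) (VV τ t) = VV τ t := by
    unfold VV
    rw [map_sum]
    have h1 : ∀ c : ZMod p, (starRingEnd ℂ) ((τ c : ℂ) * ps (t * c)) = (τ (-c) : ℂ) * ps (t * (-c)) := by
      intro c
      rw [map_mul, ← ps_neg, hτ c, mul_neg, Complex.conj_natCast]
    rw [Finset.sum_congr rfl (fun c _ => h1 c)]
    exact Equiv.sum_comp (Equiv.neg (ZMod p)) (fun c => (τ c : ℂ) * ps (t * c))
  exact (Complex.conj_eq_iff_re.mp h).symm

/-- Fourier inversion -/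
lemma inv_VV (hp : p.Prime) (τ : ZMod p → ℕ) (c : ZMod p) :
    ∑ t : ZMod p, VV τ t * ps (-(t * c)) = (p : ℂ) * τ c := by
  unfold VV
  have h1 : ∀ t : ZMod p, (∑ c' : ZMod p, (τ c' : ℂ) * ps (t * c')) * ps (-(t * c))
      = ∑ c' : ZMod p, (τ c' : ℂ) * ps (t * (c' - c)) := by
    intro t
    rw [Finset.sum_mul]
    apply Finset.sum_congr rfl
    intro c' _
    rw [mul_assoc, ← ps_add]
    congr 2
    ring
  rw [Finset.sum_congr rfl (fun t _ => h1 t), Finset.sum_comm]
  have h2 : ∀ c' : ZMod p, ∑ t : ZMod p, (τ c' : ℂ) * ps (t * (c' - c))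
      = if c' = c then (p : ℂ) * τ c else 0 := by
    intro c'
    rw [← Finset.mul_sum, sum_ps hp]
    by_cases h : c' = c
    · rw [if_pos h, if_pos (sub_eq_zero.mpr h), h]; ring
    · rw [if_neg h, if_neg (fun h' => h (sub_eq_zero.mp h')), mul_zero]
  rw [Finset.sum_congr rfl (fun c' _ => h2 c'), Finset.sum_ite_eq']
  simp

/-- the linear functional of the inversion formula -/
noncomputable def WW (ρ : ZMod p → ℝ) (c : ZMod p) : ℝ :=
  (p : ℝ)⁻¹ * ∑ t ∈ (univ : Finset (ZMod p)).erase 0, ρ t * ((ps (-(t * c))).re - 1)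

lemma u_eq_WW (hp : p.Prime) {τ : ZMod p → ℕ} (hτ : ∀ c, τ (-c) = τ c) (c : ZMod p) :
    (((τ c : ℤ) - (τ 0 : ℤ) : ℤ) : ℝ) = WW (cs p τ) c := by
  have hp0 : (p : ℝ) ≠ 0 := by exact_mod_cast hp.ne_zero
  have h1 := inv_VV hp τ c
  have h2 := inv_VV hp τ 0
  have h3 : ∑ t : ZMod p, VV τ t * (ps (-(t * c)) - 1) = (p : ℂ) * ((τ c : ℂ) - τ 0) := by
    rw [mul_sub, ← h1, ← h2, ← Finset.sum_sub_distrib]
    apply Finset.sum_congr rfl
    intro t _
    rw [mul_zero, neg_zero, ps_zero]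
    ring
  have h4 := congrArg Complex.re h3
  rw [Complex.re_sum] at h4
  have h5 : ∀ t : ZMod p, (VV τ t * (ps (-(t * c)) - 1)).re = cs p τ t * ((ps (-(t * c))).re - 1) := by
    intro t
    rw [VV_real hτ, Complex.re_ofReal_mul]
    simp
  rw [Finset.sum_congr rfl (fun t _ => h5 t)] at h4
  rw [← Finset.add_sum_erase _ _ (Finset.mem_univ (0 : ZMod p)), zero_mul, neg_zero, ps_zero] at h4
  have h6 : ((p : ℂ) * ((τ c : ℂ) - τ 0)).re = p * ((τ c : ℝ) - τ 0) := by
    have : ((p : ℂ) * ((τ c : ℂ) - τ 0)) = ((p * ((τ c : ℝ) - τ 0) : ℝ) : ℂ) := by push_cast; ring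
    rw [this, Complex.ofReal_re]
  rw [h6] at h4
  unfold WW
  simp only [Complex.one_re, sub_self, mul_zero, zero_add] at h4
  rw [h4, ← mul_assoc, inv_mul_cancel₀ hp0, one_mul]
  push_cast
  ring

lemma WW_sub (ρ ρ' : ZMod p → ℝ) (y : ℝ) (c : ZMod p) :
    WW ρ c - y * WW ρ' c = WW (fun t => ρ t - ρ' t * y) c := by
  unfold WW
  rw [← mul_assoc, mul_comm y, mul_assoc, ← mul_sub, Finset.mul_sum, ← Finset.sum_sub_distrib]
  congr 1
  apply Finset.sum_congr rfl
  intro t _
  ring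

lemma WW_bound {ρ : ZMod p → ℝ} {K : ℝ} (hK : 0 ≤ K) (h : ∀ t, t ≠ 0 → |ρ t| ≤ K) (c : ZMod p) :
    |WW ρ c| ≤ 2 * K := by
  have hp0 : (0 : ℝ) < p := by exact_mod_cast Nat.pos_of_ne_zero (NeZero.ne p)
  unfold WW
  rw [abs_mul, abs_of_pos (by positivity : (0 : ℝ) < (p : ℝ)⁻¹)]
  have h1 : |∑ t ∈ (univ : Finset (ZMod p)).erase 0, ρ t * ((ps (-(t * c))).re - 1)| ≤ p * (2 * K) := by
    refine (Finset.abs_sum_le_sum_abs _ _).trans ?_
    calc ∑ t ∈ (univ : Finset (ZMod p)).erase 0, |ρ t * ((ps (-(t * c))).re - 1)|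
        ≤ ∑ t ∈ (univ : Finset (ZMod p)).erase 0, 2 * K := by
          apply Finset.sum_le_sum
          intro t ht
          rw [Finset.mem_erase] at ht
          rw [abs_mul, mul_comm 2 K]
          have h2 : |(ps (-(t * c))).re - 1| ≤ 2 := by
            have h3 := Complex.abs_re_le_norm (ps (-(t * c)))
            rw [ps_norm, abs_le] at h3
            rw [abs_le]
            constructor <;> linarith
          have := h t ht.1
          gcongr
      _ ≤ ∑ t : ZMod p, 2 * K := by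
          apply Finset.sum_le_sum_of_subset_of_nonneg (Finset.erase_subset _ _)
          intro _ _ _
          positivity
      _ = p * (2 * K) := by
          rw [Finset.sum_const, Finset.card_univ, ZMod.card, nsmul_eq_mul]
  calc (p : ℝ)⁻¹ * |∑ t ∈ (univ : Finset (ZMod p)).erase 0, ρ t * ((ps (-(t * c))).re - 1)|
      ≤ (p : ℝ)⁻¹ * (p * (2 * K)) := by gcongr
    _ = 2 * K := by field_simp

/-- the values away from zero only depend on the differences -/
lemma cs_vu (hp : p.Prime) (τ : ZMod p → ℕ) {t : ZMod p} (ht : t ≠ 0) :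
    cs p τ t = vu (fun c => (τ c : ℤ) - (τ 0 : ℤ)) t := by
  rw [cs_re]
  unfold VV vu
  congr 1
  have h1 : ∑ c : ZMod p, ps (t * c) = 0 := by
    have h := sum_ps hp t
    rw [if_neg ht] at h
    rw [← h]
    apply Finset.sum_congr rfl
    intro c _
    rw [mul_comm]
  have h2 : ∑ c : ZMod p, (((τ c : ℤ) - (τ 0 : ℤ) : ℤ) : ℂ) * ps (t * c)
      = ∑ c : ZMod p, (τ c : ℂ) * ps (t * c) - (τ 0 : ℂ) * ∑ c : ZMod p, ps (t * c) := by
    rw [Finset.mul_sum, ← Finset.sum_sub_distrib]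
    apply Finset.sum_congr rfl
    intro c _
    push_cast
    ring
  rw [h2, h1, mul_zero, sub_zero]

/-- the conditions on `m` for a given `u` -/
def Good (s : ℕ) (u : ZMod p → ℤ) (m : ℕ) : Prop :=
  (∀ t : ZMod p, t ≠ 0 → (BP (fun k => vu u ((k : ZMod p) * t)) s).eval (m : ℝ) = 0) ∧
    (Even s ∨ ∃ t : ZMod p, t ≠ 0 ∧ vu u t ≠ 0)

lemma good_card (hp : p.Prime) {s : ℕ} (u : ZMod p → ℤ) (S : Finset ℕ) (hS : ∀ m ∈ S, Good s u m) :
    #S ≤ s := by
  have _ : Fact p.Prime := ⟨hp⟩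
  rcases S.eq_empty_or_nonempty with h0 | ⟨m0, hm0⟩
  · rw [h0, Finset.card_empty]; exact Nat.zero_le _
  obtain ⟨t, ht, hP⟩ : ∃ t : ZMod p, t ≠ 0 ∧ BP (fun k => vu u ((k : ZMod p) * t)) s ≠ 0 := by
    rcases Nat.even_or_odd s with he | ho
    · refine ⟨1, one_ne_zero, ?_⟩
      obtain ⟨r, hr⟩ := he
      intro h
      have h1 := (BP_coeff (fun k => vu u ((k : ZMod p) * 1)) r).1
      rw [show 2 * r = s by omega, h, coeff_zero, eq_comm, div_eq_zero_iff] at h1
      rcases h1 with h1 | h1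
      · exact absurd h1 (pow_ne_zero _ (by norm_num))
      · exact absurd h1 (by exact_mod_cast Nat.factorial_ne_zero r)
    · rcases (hS m0 hm0).2 with he | ⟨t, ht, hv⟩
      · exact absurd he (Nat.not_even_iff_odd.mpr ho)
      · refine ⟨t, ht, ?_⟩
        obtain ⟨r, hr⟩ := ho
        intro h
        have h1 := (BP_coeff (fun k => vu u ((k : ZMod p) * t)) r).2
        rw [← hr, h, coeff_zero, eq_comm, div_eq_zero_iff] at h1
        rcases h1 with h1 | h1
        · rcases mul_eq_zero.mp h1 with h2 | h2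
          · exact absurd h2 (pow_ne_zero _ (by norm_num))
          · simp only [Nat.cast_one, one_mul] at h2
            exact hv h2
        · exact absurd h1 (by exact_mod_cast Nat.factorial_ne_zero r)
  set P := BP (fun k => vu u ((k : ZMod p) * t)) s with hPdef
  calc #S = #(S.image (fun m : ℕ => (m : ℝ))) := by
        rw [Finset.card_image_of_injective _ Nat.cast_injective]
    _ ≤ #P.roots.toFinset := by
        apply Finset.card_le_card
        intro x hx
        rw [Finset.mem_image] at hx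
        obtain ⟨m, hm, rfl⟩ := hx
        rw [Multiset.mem_toFinset, mem_roots hP]
        exact (hS m hm).1 t ht
    _ ≤ Multiset.card P.roots := Multiset.toFinset_card_le _
    _ ≤ P.natDegree := card_roots' _
    _ ≤ s / 2 := BP_deg _ _
    _ ≤ s := Nat.div_le_self _ _

end

theorem ct (hND : T_ND) : T_CT := by
  intro s p hs hp hsp
  have _ : Fact p.Prime := ⟨hp⟩
  have _ : NeZero p := ⟨hp.ne_zero⟩
  obtain ⟨K, R, hK, hR⟩ := hND s (by omega)
  set R' : Finset ℝ := insert 0 R with hR'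
  set B : ℝ := ∑ ρ ∈ R, |ρ| with hB
  have hB0 : 0 ≤ B := Finset.sum_nonneg (fun _ _ => abs_nonneg _)
  set L : ℕ := ⌈2 * K + 2 * B⌉₊ + 1 with hL
  have hLb : 2 * K + 2 * B + 1 ≤ L := by
    rw [hL]
    push_cast
    linarith [Nat.le_ceil (2 * K + 2 * B)]
  set cond : ℕ → Prop := fun m => (Even s ∨ ¬ p ∣ 2 * m + 1) ∧ ∃ τ : ZMod p → ℕ, Img p s m τ with hcond
  have hdata : ∀ m : ℕ, ∃ (ρ : ZMod p → ℝ) (u d : ZMod p → ℤ), 1 ≤ m → cond m →
      (∀ t, ρ t ∈ R') ∧ (∀ c, u c = d c + ⌊((⌊√(m : ℝ)⌋₊ : ℕ) : ℝ) * WW ρ c⌋) ∧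
      (∀ c, d c ∈ Finset.Icc (-(L : ℤ)) L) ∧ Good s u m := by
    intro m
    by_cases hm : 1 ≤ m ∧ cond m
    swap
    · exact ⟨fun _ => 0, fun _ => 0, fun _ => 0, fun h1 h2 => absurd ⟨h1, h2⟩ hm⟩
    obtain ⟨hm1, hpm, τ, hτ, hsum, hzero⟩ := hm
    have hmr : (1 : ℝ) ≤ m := by exact_mod_cast hm1
    have hnd := hR p hp hsp (m : ℝ) (cs p τ) hmr hzero
    set y : ℝ := √(m : ℝ) with hy
    have hy1 : 1 ≤ y := by rw [hy, Real.one_le_sqrt]; exact hmr
    choose! ρ0 hρ0 using hnd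
    set ρ : ZMod p → ℝ := fun t => if t = 0 then 0 else ρ0 t with hρ
    set u : ZMod p → ℤ := fun c => (τ c : ℤ) - (τ 0 : ℤ) with hu
    refine ⟨ρ, u, fun c => u c - ⌊((⌊y⌋₊ : ℕ) : ℝ) * WW ρ c⌋, fun _ _ => ⟨?_, ?_, ?_, ?_, ?_⟩⟩
    · intro t
      simp only [hρ]
      split_ifs with h
      · exact Finset.mem_insert_self _ _
      · exact Finset.mem_insert_of_mem (hρ0 t h).1
    · intro c
      ring
    · intro c
      have e1 : ((u c : ℤ) : ℝ) = WW (cs p τ) c := u_eq_WW hp hτ c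
      have e2 : |(u c : ℝ) - y * WW ρ c| ≤ 2 * K := by
        rw [e1, WW_sub]
        apply WW_bound hK.le
        intro t ht
        simp only [hρ, if_neg ht]
        exact (hρ0 t ht).2
      have e3 : |WW ρ c| ≤ 2 * B := by
        apply WW_bound hB0
        intro t ht
        simp only [hρ, if_neg ht]
        exact Finset.single_le_sum (f := fun x => |x|) (fun _ _ => abs_nonneg _) (hρ0 t ht).1
      have e4 : |y - (⌊y⌋₊ : ℝ)| ≤ 1 := by
        rw [abs_le]
        have e5 := Nat.floor_le (by linarith : 0 ≤ y)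
        have e6 := Nat.lt_floor_add_one y
        constructor <;> linarith
      have e5 : |(u c : ℝ) - (⌊y⌋₊ : ℝ) * WW ρ c| ≤ 2 * K + 2 * B := by
        have e6 : (u c : ℝ) - (⌊y⌋₊ : ℝ) * WW ρ c = ((u c : ℝ) - y * WW ρ c) + (y - (⌊y⌋₊ : ℝ)) * WW ρ c := by
          ring
        rw [e6]
        refine (abs_add_le _ _).trans ?_
        rw [abs_mul]
        have e7 : |y - (⌊y⌋₊ : ℝ)| * |WW ρ c| ≤ 1 * (2 * B) := by gcongr
        linarith
      rw [abs_le] at e5
      have e6 := Int.floor_le ((⌊y⌋₊ : ℝ) * WW ρ c)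
      have e7 := Int.lt_floor_add_one ((⌊y⌋₊ : ℝ) * WW ρ c)
      rw [Finset.mem_Icc]
      constructor
      · have : (-(L : ℝ)) ≤ (u c : ℝ) - (⌊(⌊y⌋₊ : ℝ) * WW ρ c⌋ : ℝ) := by linarith
        exact_mod_cast this
      · have : (u c : ℝ) - (⌊(⌊y⌋₊ : ℝ) * WW ρ c⌋ : ℝ) ≤ (L : ℝ) := by linarith
        exact_mod_cast this
    · intro t ht
      have e1 : BP (fun k => vu u ((k : ZMod p) * t)) s = BP (fun k => cs p τ ((k : ZMod p) * t)) s := by
        apply BP_congr
        intro k hk1 hk2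
        rw [cs_vu hp]
        apply mul_ne_zero _ ht
        intro h
        rw [ZMod.natCast_eq_zero_iff] at h
        have := Nat.le_of_dvd (by omega) h
        omega
      rw [e1]
      exact hzero t ht
    · rcases hpm with he | hnd
      · exact Or.inl he
      · right
        by_contra hall
        push Not at hall
        apply hnd
        have e1 : ∀ c, u c = 0 := by
          intro c
          have e2 : ((u c : ℤ) : ℝ) = WW (cs p τ) c := u_eq_WW hp hτ c
          have e3 : WW (cs p τ) c = 0 := by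
            unfold WW
            rw [Finset.sum_eq_zero, mul_zero]
            intro t ht
            rw [Finset.mem_erase] at ht
            rw [cs_vu hp τ ht.1, hall t ht.1, zero_mul]
          rw [e3] at e2
          exact_mod_cast e2
        have e2 : ∀ c, τ c = τ 0 := by
          intro c
          have := e1 c
          rw [hu] at this
          simp only at this
          omega
        have e3 : ∑ c ∈ range p, τ (c : ZMod p) = p * τ 0 := by
          rw [Finset.sum_congr rfl (fun c _ => e2 _), Finset.sum_const, Finset.card_range, smul_eq_mul]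
        rw [e3] at hsum
        exact ⟨τ 0, hsum.symm⟩
  choose ρf uf df hf using hdata
  set A : ℕ := #(Fintype.piFinset (fun _ : ZMod p => R')) *
    #(Fintype.piFinset (fun _ : ZMod p => Finset.Icc (-(L : ℤ)) L)) with hA
  refine ⟨1 + 2 * (s * A : ℕ), ?_⟩
  intro Y
  rcases Nat.eq_zero_or_pos Y with hY | hY
  · subst hY
    simp
  set S : Finset ℕ := {m ∈ range Y | cond m} with hS
  set S1 : Finset ℕ := {m ∈ S | 1 ≤ m} with hS1
  have hcard1 : #S ≤ 1 + #S1 := by
    have h1 : S ⊆ {0} ∪ S1 := by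
      intro m hm
      rw [Finset.mem_union, Finset.mem_singleton]
      rcases Nat.eq_zero_or_pos m with h | h
      · exact Or.inl h
      · right
        rw [hS1, Finset.mem_filter]
        exact ⟨hm, h⟩
    calc #S ≤ #({0} ∪ S1) := Finset.card_le_card h1
      _ ≤ #({0} : Finset ℕ) + #S1 := Finset.card_union_le _ _
      _ = 1 + #S1 := by rw [Finset.card_singleton]
  set J : ℕ := ⌊√(Y : ℝ)⌋₊ + 1 with hJ
  have hcard2 : #S1 ≤ s * #(range J ×ˢ (Fintype.piFinset (fun _ : ZMod p => R') ×ˢ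
      Fintype.piFinset (fun _ : ZMod p => Finset.Icc (-(L : ℤ)) L))) := by
    apply Finset.card_le_mul_card_image_of_maps_to
      (f := fun m : ℕ => ((⌊√(m : ℝ)⌋₊ : ℕ), (ρf m, df m)))
    · intro m hm
      rw [hS1, Finset.mem_filter, hS, Finset.mem_filter, Finset.mem_range] at hm
      obtain ⟨⟨hmY, hc⟩, hm1⟩ := hm
      obtain ⟨h1, h2, h3, h4⟩ := hf m hm1 hc
      rw [Finset.mem_product, Finset.mem_product, Finset.mem_range, Fintype.mem_piFinset,
        Fintype.mem_piFinset]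
      refine ⟨?_, h1, h3⟩
      rw [hJ, Nat.lt_succ_iff]
      apply Nat.floor_le_floor
      apply Real.sqrt_le_sqrt
      exact_mod_cast hmY.le
    · intro b _
      rcases (S1.filter (fun m : ℕ => ((⌊√(m : ℝ)⌋₊ : ℕ), (ρf m, df m)) = b)).eq_empty_or_nonempty with h0 | ⟨m0, hm0⟩
      · rw [h0, Finset.card_empty]; exact Nat.zero_le _
      apply good_card hp (uf m0)
      intro m hm
      rw [Finset.mem_filter, hS1, Finset.mem_filter, hS, Finset.mem_filter] at hm hm0
      obtain ⟨⟨⟨_, hc⟩, hm1⟩, hb⟩ := hm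
      obtain ⟨⟨⟨_, hc0⟩, hm01⟩, hb0⟩ := hm0
      obtain ⟨_, h2, _, h4⟩ := hf m hm1 hc
      obtain ⟨_, h20, _, _⟩ := hf m0 hm01 hc0
      have hbb := hb.trans hb0.symm
      rw [Prod.mk.injEq, Prod.mk.injEq] at hbb
      obtain ⟨hb1, hb2, hb3⟩ := hbb
      have hu : uf m0 = uf m := by
        funext c
        rw [h2 c, h20 c, hb1, hb2, hb3]
      rw [hu]
      exact h4
  have hcard3 : #(range J ×ˢ (Fintype.piFinset (fun _ : ZMod p => R') ×ˢ
      Fintype.piFinset (fun _ : ZMod p => Finset.Icc (-(L : ℤ)) L))) = J * A := by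
    rw [Finset.card_product, Finset.card_product, Finset.card_range]
  rw [hcard3] at hcard2
  have hY1 : 1 ≤ √(Y : ℝ) := by
    rw [Real.one_le_sqrt]
    exact_mod_cast hY
  have hJ2 : (J : ℝ) ≤ 2 * √(Y : ℝ) := by
    rw [hJ]
    push_cast
    have := Nat.floor_le (by linarith : 0 ≤ √(Y : ℝ))
    linarith
  have hfin : (#S : ℝ) ≤ 1 + (s * (J * A) : ℕ) := by
    have : #S ≤ 1 + s * (J * A) := by omega
    exact_mod_cast this
  have hfin2 : ((s * (J * A) : ℕ) : ℝ) ≤ (s * A : ℕ) * (2 * √(Y : ℝ)) := by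
    push_cast
    calc (s : ℝ) * (J * A) = (s * A) * J := by ring
      _ ≤ (s * A) * (2 * √(Y : ℝ)) := by gcongr
  calc (#S : ℝ) ≤ 1 + (s * (J * A) : ℕ) := hfin
    _ ≤ √(Y : ℝ) + (s * A : ℕ) * (2 * √(Y : ℝ)) := by linarith
    _ = (1 + 2 * (s * A : ℕ)) * √(Y : ℝ) := by ring

end Pool.Agent.H42.GA
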